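import Pool.Agent.Helper28.HG.Ineq
set_option autoImplicit false

/-!
The dimension estimate for crossed homomorphisms, for an exact sequence
`R[G]^c → R[G]^b → M → R → 0` with an arbitrary module `M`.
-/

open Matrix MulOpposite
open Pool.Agent.Helper72.HG Pool.Agent.Helper35.SH Pool.Agent.Helper28.HG

namespace Pool.Agent.Helper32.RF

variable {R : Type} [CommRing R] {G : Type} [Group G] {L : Type} [DivisionRing L] [Algebra R L]

/-- the dimension estimate -/
theorem finrank_Z1_ge_abs {b c ι M : Type} [Fintype b] [Fintype c] [Fintype ι]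
    [AddCommGroup M] [Module (MonoidAlgebra R G) M] (ρ : G →* L)
    {D₂ : Matrix c b (MonoidAlgebra R G)}
    (d1 : (b → MonoidAlgebra R G) →ₗ[MonoidAlgebra R G] M) (ag : M → R)
    (ag_add : ∀ m m', ag (m + m') = ag m + ag m')
    (ag_smul : ∀ (x : MonoidAlgebra R G) m, ag (x • m) = Coalgebra.counit x * ag m)
    (p₀ : M) (hp₀ : ag p₀ = 1) (h1 : ∀ m, ag m = 0 ↔ ∃ w, d1 w = m)
    (h2 : ∀ w, d1 w = 0 ↔ ∃ u : c → MonoidAlgebra R G, u ᵥ* D₂ = w)
    (Ψ : (M → L) →ₗ[Lᵐᵒᵖ] (ι → L))
    (hΨ : ∀ F : M → L, (∀ m m', F (m + m') = F m + F m') →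
      (∀ (x : MonoidAlgebra R G) m, F (x • m) = ex ρ x * F m) → Ψ F = 0 → F = 0)
    [Module.Finite Lᵐᵒᵖ (Z1 ρ)] :
    Fintype.card b + 1 ≤
      Module.finrank Lᵐᵒᵖ (Z1 ρ) + Module.finrank Lᵐᵒᵖ (LinearMap.range (mp ρ D₂)) +
        Fintype.card ι := by
  classical
  have := finite_op (L := L)
  let cst : R → MonoidAlgebra R G := fun r => algebraMap R _ r
  have hcst : ∀ r, (Coalgebra.counit (cst r) : R) = r := fun r => by
    have h3 : cst r = r • (MonoidAlgebra.single (1 : G) (1 : R)) := by
      simp only [cst, Algebra.algebraMap_eq_smul_one]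
      rfl
    rw [h3, map_smul, counit_single_one, smul_eq_mul, mul_one]
  have hcc : ∀ r r', cst (r * r') = cst r * cst r' := fun r r' => map_mul _ _ _
  have hca : ∀ r r', cst (r + r') = cst r + cst r' := fun r r' => map_add _ _ _
  have hc1 : cst 1 = 1 := map_one _
  have hc0 : cst 0 = 0 := map_zero _
  have hcomm : ∀ r x, cst r * x = x * cst r := fun r x => Algebra.commutes r x
  have hexc : ∀ r, ∀ y : L, ex ρ (cst r) * y = r • y := fun r y => by
    simp only [cst, AlgHom.commutes]
    rw [Algebra.smul_def]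
  -- a lift
  have ag_sub : ∀ m m', ag (m - m') = ag m - ag m' := by
    intro m m'
    have h3 := ag_add (m - m') m'
    rw [sub_add_cancel] at h3
    rw [h3, add_sub_cancel_right]
  have hex : ∀ m : M, ∃ w : b → MonoidAlgebra R G, d1 w = m - cst (ag m) • p₀ := by
    intro m
    refine (h1 _).1 ?_
    rw [ag_sub, ag_smul, hp₀, hcst, mul_one, sub_self]
  choose W hW using hex
  have hker : ∀ (z : b → L), mp ρ D₂ z = 0 → ∀ w w' : b → MonoidAlgebra R G,
      d1 w = d1 w' → ev ρ z w = ev ρ z w' := by
    intro z hz w w' hww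
    have h3 : d1 (w - w') = 0 := by rw [map_sub, hww, sub_self]
    obtain ⟨u, hu⟩ := (h2 _).1 h3
    have h4 : ev ρ z (w - w') = 0 := by
      rw [← hu, ev_vecMul, hz, ev_zero_left]
    rw [ev_sub, sub_eq_zero] at h4
    exact h4
  -- the crossed homomorphism
  let sg : G → MonoidAlgebra R G := fun g => MonoidAlgebra.single g 1
  have hsg : ∀ g h, sg (g * h) = sg g * sg h := fun g h => by
    simp [sg, MonoidAlgebra.single_mul_single]
  have haug : ∀ g, ag (sg g • p₀) = 1 := fun g => by
    rw [ag_smul, counit_single_one, hp₀, mul_one]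
  have hext : ∀ g, ex ρ (sg g) = ρ g := fun g => by
    rw [ex_single, one_smul]
  let C : (b → L) → G → L := fun z g => ev ρ z (W (sg g • p₀))
  have hC : ∀ z, mp ρ D₂ z = 0 → ∀ g h, C z (g * h) = C z g + ρ g * C z h := by
    intro z hz g h
    have h3 : C z (g * h) = ev ρ z (W (sg g • p₀) + sg g • W (sg h • p₀)) := by
      refine hker z hz _ _ ?_
      rw [map_add, map_smul, hW, hW, hW, haug, haug, haug, hsg, mul_smul, hc1, one_smul, smul_sub]
      abel
    rw [h3, ev_add, ev_smul, hext]
  -- the linear map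
  let K := LinearMap.ker (mp ρ D₂)
  have hK : ∀ z : K, mp ρ D₂ (z : b → L) = 0 := fun z => z.2
  let Θ : (K × L) →ₗ[Lᵐᵒᵖ] Z1 ρ :=
    { toFun := fun x => ⟨fun g => C x.1 g + (ρ g * x.2 - x.2), by
        intro g h
        simp only [hC _ (hK x.1) g h, map_mul, mul_add, mul_sub, mul_assoc]
        abel⟩
      map_add' := by
        intro x y
        ext g
        simp only [Prod.fst_add, Prod.snd_add, Submodule.coe_add, C, ev_add_left,
          mul_add, Pi.add_apply]
        abel
      map_smul' := by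
        intro r x
        ext g
        simp only [Prod.smul_fst, Prod.smul_snd, Submodule.coe_smul, C, ev_smul_left,
          Pi.smul_apply, RingHom.id_apply, MulOpposite.smul_eq_mul_unop, add_mul, sub_mul,
          mul_assoc] }
  -- the extension lemma
  have hF : ∀ (z : b → L) (u' : L), mp ρ D₂ z = 0 →
      (∀ g, C z g = ρ g * u' - u') →
      (∀ m m', ev ρ z (W (m + m')) + ag (m + m') • u' =
        (ev ρ z (W m) + ag m • u') + (ev ρ z (W m') + ag m' • u')) ∧
      (∀ (x : MonoidAlgebra R G) m, ev ρ z (W (x • m)) + ag (x • m) • u' =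
        ex ρ x * (ev ρ z (W m) + ag m • u')) := by
    intro z u' hz hCz
    have hadd : ∀ m m', ev ρ z (W (m + m')) + ag (m + m') • u' =
        (ev ρ z (W m) + ag m • u') + (ev ρ z (W m') + ag m' • u') := by
      intro m m'
      have h3 : ev ρ z (W (m + m')) = ev ρ z (W m + W m') := by
        refine hker z hz _ _ ?_
        rw [map_add, hW, hW, hW, ag_add, hca, add_smul]
        abel
      rw [h3, ev_add, ag_add, add_smul]
      abel
    refine ⟨hadd, ?_⟩
    intro x m
    induction x using MonoidAlgebra.induction_linear with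
    | zero =>
      have h3 : ev ρ z (W ((0 : MonoidAlgebra R G) • m)) =
          ev ρ z (0 : b → MonoidAlgebra R G) := by
        refine hker z hz _ _ ?_
        rw [hW, ag_smul, map_zero, zero_mul, hc0, zero_smul, zero_smul, sub_zero, map_zero]
      rw [h3, ev_zero, ag_smul]
      simp
    | add x y hx hy => rw [add_smul, hadd, hx, hy, map_add, add_mul]
    | single g q =>
      have e1 : (MonoidAlgebra.single g q : MonoidAlgebra R G) = cst q * sg g := by
        simp only [sg, cst, Algebra.algebraMap_eq_smul_one, smul_mul_assoc, one_mul,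
          MonoidAlgebra.smul_single, smul_eq_mul, mul_one]
      have ec : (Coalgebra.counit (cst q * sg g) : R) = q := by
        rw [counit_mul, hcst, counit_single_one, mul_one]
      have h3 : ev ρ z (W ((cst q * sg g) • m)) =
          ev ρ z ((cst q * sg g) • W m + cst (q * ag m) • W (sg g • p₀)) := by
        refine hker z hz _ _ ?_
        rw [map_add, map_smul, map_smul, hW, hW, hW, haug, ag_smul, ec, hc1, one_smul, smul_sub,
          smul_sub, ← mul_smul (cst q * sg g) (cst (ag m)) p₀,
          ← mul_smul (cst (q * ag m)) (sg g) p₀, hcc, mul_assoc (cst q) (sg g) (cst (ag m)),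
          ← hcomm (ag m) (sg g), mul_assoc (cst q) (cst (ag m)) (sg g)]
        abel
      rw [e1, h3, ev_add, ev_smul, ev_smul, ag_smul, ec, map_mul, hext, hexc, hexc]
      have h4 : ev ρ z (W (sg g • p₀)) = ρ g * u' - u' := hCz g
      rw [h4, mul_add, smul_mul_assoc, smul_mul_assoc, mul_smul_comm, smul_sub, smul_smul]
      abel
  -- the second linear map
  let Λ : (K × L) →ₗ[Lᵐᵒᵖ] (M → L) :=
    { toFun := fun x m => ev ρ (x.1 : b → L) (W m) - ag m • x.2
      map_add' := by
        intro x y
        ext j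
        simp only [Prod.fst_add, Prod.snd_add, Submodule.coe_add, ev_add_left, Pi.add_apply,
          smul_add]
        abel
      map_smul' := by
        intro r x
        ext j
        simp only [Prod.smul_fst, Prod.smul_snd, Submodule.coe_smul, ev_smul_left, Pi.smul_apply,
          RingHom.id_apply, MulOpposite.smul_eq_mul_unop, sub_mul, smul_mul_assoc] }
  have hinj : ∀ x ∈ LinearMap.ker Θ, Ψ (Λ x) = 0 → x = 0 := by
    intro x hx hΛ
    have hx' : Θ x = 0 := hx
    have h3 : ∀ g, C x.1 g = ρ g * (-x.2) - (-x.2) := by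
      intro g
      have h4 : C x.1 g + (ρ g * x.2 - x.2) = 0 := by
        have := congrArg (fun y : Z1 ρ => (y : G → L) g) hx'
        exact this
      rw [mul_neg, eq_neg_of_add_eq_zero_left h4]
      abel
    obtain ⟨h5, h6⟩ := hF x.1 (-x.2) (hK x.1) h3
    have h7 : ∀ m, Λ x m = ev ρ (x.1 : b → L) (W m) + ag m • (-x.2) := by
      intro m
      show ev ρ (x.1 : b → L) (W m) - ag m • x.2 = _
      rw [smul_neg, sub_eq_add_neg]
    have h8 : Λ x = 0 := by
      refine hΨ (Λ x) (fun m m' => ?_) (fun y m => ?_) hΛ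
      · rw [h7, h7, h7]
        exact h5 m m'
      · rw [h7, h7]
        exact h6 y m
    have h9 : ∀ m, ev ρ (x.1 : b → L) (W m) + ag m • (-x.2) = 0 := fun m => by
      rw [← h7, h8]
      rfl
    ext1
    · refine Subtype.ext ?_
      funext j
      have h10 := h9 (d1 (Pi.single j 1))
      have h11 : ag (d1 (Pi.single j 1 : b → MonoidAlgebra R G)) = 0 := (h1 _).2 ⟨_, rfl⟩
      have h12 : ev ρ (x.1 : b → L) (W (d1 (Pi.single j 1))) =
          ev ρ (x.1 : b → L) (Pi.single j (1 : MonoidAlgebra R G)) := by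
        refine hker _ (hK x.1) _ _ ?_
        rw [hW, h11, hc0, zero_smul, sub_zero]
      rw [h12, h11, zero_smul, add_zero, ev_single] at h10
      exact h10
    · have h10 := h9 p₀
      have h12 : ev ρ (x.1 : b → L) (W p₀) =
          ev ρ (x.1 : b → L) (0 : b → MonoidAlgebra R G) := by
        refine hker _ (hK x.1) _ _ ?_
        rw [hW, hp₀, hc1, one_smul, sub_self, map_zero]
      rw [h12, ev_zero, zero_add, hp₀, one_smul] at h10
      exact neg_eq_zero.1 h10
  -- count dimensions
  have d1' := LinearMap.finrank_range_add_finrank_ker Θ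
  have d2 : Module.finrank Lᵐᵒᵖ (LinearMap.range Θ) ≤ Module.finrank Lᵐᵒᵖ (Z1 ρ) :=
    Submodule.finrank_le _
  have d3 : Module.finrank Lᵐᵒᵖ (LinearMap.ker Θ) ≤ Module.finrank Lᵐᵒᵖ (ι → L) := by
    refine LinearMap.finrank_le_finrank_of_injective
      (f := Ψ.comp (Λ.comp (LinearMap.ker Θ).subtype)) ?_
    refine (injective_iff_map_eq_zero _).2 ?_
    intro x hx
    exact Subtype.ext (hinj x x.2 hx)
  have d4 := LinearMap.finrank_range_add_finrank_ker (mp ρ D₂)
  have d5 : Module.finrank Lᵐᵒᵖ (K × L) = Module.finrank Lᵐᵒᵖ K + 1 := by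
    rw [Module.finrank_prod, finrank_op]
  have d6 : Module.finrank Lᵐᵒᵖ (ι → L) = Fintype.card ι := finrank_op_pi ι
  have d7 : Module.finrank Lᵐᵒᵖ (b → L) = Fintype.card b := finrank_op_pi b
  have d9 : Module.finrank Lᵐᵒᵖ K = Module.finrank Lᵐᵒᵖ (LinearMap.ker (mp ρ D₂)) := rfl
  omega

end Pool.Agent.Helper32.RF
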