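import Pool.Agent.Helper35.SH.Defs
set_option autoImplicit false

/-!
The beginning of the chain complex of a pair `(P, ∂P)` over the group ring.
-/

open Matrix

namespace Pool.Agent.Helper32.RF

/-- The left ideal of `R[G]` generated by the elements `h - 1`, `h ∈ H`. The quotient of `R[G]` by it
is the permutation module `R[G/H]`. -/
noncomputable def augIdeal (R : Type) [CommRing R] {G : Type} [Group G] (H : Subgroup G) :
    Submodule (MonoidAlgebra R G) (MonoidAlgebra R G) :=
  Submodule.span (MonoidAlgebra R G) {x | ∃ h ∈ H, x = MonoidAlgebra.single h 1 - 1}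

/-- `IsRelStart H D₁ E D₂`: the sequence of left `R[G]`-modules
`R[G]^c → R[G]^b → R[G]^a ⊕ ⨁ᵢ R[G/Hᵢ] → R → 0` given by right multiplication of row vectors by
`D₂`, by `D₁` and `E` (followed by the projections `R[G] → R[G/Hᵢ]`), and by a homomorphism onto the
trivial module `R` (which maps the basis vectors of `R[G]^a` to `t j` and the cosets `Hᵢ` to `s i`),
is exact. -/
def IsRelStart {R : Type} [CommRing R] {G : Type} [Group G] {a b c I : Type} [Fintype a]
    [Fintype b] [Fintype c] [Fintype I] (H : I → Subgroup G)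
    (D₁ : Matrix b a (MonoidAlgebra R G)) (E : Matrix b I (MonoidAlgebra R G))
    (D₂ : Matrix c b (MonoidAlgebra R G)) : Prop :=
  (∃ (t : a → R) (s : I → R),
    (∃ (v : a → MonoidAlgebra R G) (x : I → MonoidAlgebra R G),
      ∑ j, t j * Coalgebra.counit (v j) + ∑ i, s i * Coalgebra.counit (x i) = 1) ∧
    ∀ (v : a → MonoidAlgebra R G) (x : I → MonoidAlgebra R G),
      ∑ j, t j * Coalgebra.counit (v j) + ∑ i, s i * Coalgebra.counit (x i) = 0 ↔
        ∃ w : b → MonoidAlgebra R G, w ᵥ* D₁ = v ∧ ∀ i, (w ᵥ* E) i - x i ∈ augIdeal R (H i)) ∧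
  ∀ w : b → MonoidAlgebra R G, (w ᵥ* D₁ = 0 ∧ ∀ i, (w ᵥ* E) i ∈ augIdeal R (H i)) ↔
    ∃ u : c → MonoidAlgebra R G, u ᵥ* D₂ = w

end Pool.Agent.Helper32.RF
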