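import Pool.Agent.Helper32.RF.Abs
import Pool.Agent.Helper32.RF.Defs
set_option autoImplicit false

/-!
The Euler characteristic inequality over a division ring for four-dimensional Poincaré duality
pairs.
-/

open Matrix MulOpposite
open Pool.Agent.Helper72.HG Pool.Agent.Helper35.SH Pool.Agent.Helper28.HG

namespace Pool.Agent.Helper32.RF

variable {R : Type} [CommRing R] {G : Type} [Group G] {L : Type} [DivisionRing L] [Algebra R L]

/-- the augmentation as a ring homomorphism -/
noncomputable def eps (R : Type) [CommRing R] (G : Type) [Group G] : MonoidAlgebra R G →+* R :=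
  (Bialgebra.counitAlgHom R (MonoidAlgebra R G)).toRingHom

lemma eps_apply (x : MonoidAlgebra R G) : eps R G x = Coalgebra.counit x := rfl

/-- the augmentation as a semilinear map -/
noncomputable def epsl (R : Type) [CommRing R] (G : Type) [Group G] :
    MonoidAlgebra R G →ₛₗ[eps R G] R where
  toFun x := eps R G x
  map_add' x y := map_add _ x y
  map_smul' x y := by
    rw [smul_eq_mul, map_mul, smul_eq_mul]

lemma augIdeal_le (H : Subgroup G) : augIdeal R H ≤ LinearMap.ker (epsl R G) := by
  unfold augIdeal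
  rw [Submodule.span_le]
  rintro _ ⟨h, _, rfl⟩
  show eps R G (MonoidAlgebra.single h 1 - 1) = 0
  rw [map_sub, map_one, eps_apply, counit_single_one, sub_self]

/-- the augmentation of `R[G/H]` -/
noncomputable def epsq (R : Type) [CommRing R] {G : Type} [Group G] (H : Subgroup G) :
    (MonoidAlgebra R G ⧸ augIdeal R H) →ₛₗ[eps R G] R :=
  (augIdeal R H).liftQ (epsl R G) (augIdeal_le H)

lemma epsq_mk (H : Subgroup G) (x : MonoidAlgebra R G) :
    epsq R H (Submodule.Quotient.mk x) = Coalgebra.counit x := rfl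

section

variable {a b c I : Type} [Fintype a] [Fintype b] [Fintype c] [Fintype I]

/-- the second map of the sequence -/
noncomputable def dd (H : I → Subgroup G) (D₁ : Matrix b a (MonoidAlgebra R G))
    (E : Matrix b I (MonoidAlgebra R G)) :
    (b → MonoidAlgebra R G) →ₗ[MonoidAlgebra R G]
      (a → MonoidAlgebra R G) × ((i : I) → MonoidAlgebra R G ⧸ augIdeal R (H i)) where
  toFun w := (w ᵥ* D₁, fun i => Submodule.Quotient.mk ((w ᵥ* E) i))
  map_add' w w' := by
    rw [Matrix.add_vecMul, Matrix.add_vecMul]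
    rfl
  map_smul' x w := by
    rw [Matrix.smul_vecMul, Matrix.smul_vecMul]
    rfl

lemma dd_apply (H : I → Subgroup G) (D₁ : Matrix b a (MonoidAlgebra R G))
    (E : Matrix b I (MonoidAlgebra R G)) (w : b → MonoidAlgebra R G) :
    dd H D₁ E w = (w ᵥ* D₁, fun i => Submodule.Quotient.mk ((w ᵥ* E) i)) := rfl

/-- the dimension estimate for a pair -/
theorem finrank_Z1_ge_rel (ρ : G →* L) (H : I → Subgroup G)
    {D₁ : Matrix b a (MonoidAlgebra R G)} {E : Matrix b I (MonoidAlgebra R G)}
    {D₂ : Matrix c b (MonoidAlgebra R G)} (h : IsRelStart H D₁ E D₂) (T : Finset I)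
    (hT : ∀ i, i ∉ T → ∃ g ∈ H i, ρ g ≠ 1) [Module.Finite Lᵐᵒᵖ (Z1 ρ)] :
    Fintype.card b + 1 ≤
      Module.finrank Lᵐᵒᵖ (Z1 ρ) + Module.finrank Lᵐᵒᵖ (LinearMap.range (mp ρ D₂)) +
        (Fintype.card a + T.card) := by
  classical
  obtain ⟨⟨t, s, ⟨v₀, x₀, h0⟩, h1⟩, h2⟩ := h
  let M := (a → MonoidAlgebra R G) × ((i : I) → MonoidAlgebra R G ⧸ augIdeal R (H i))
  let ag : M → R := fun m => ∑ j, t j * Coalgebra.counit (m.1 j) + ∑ i, s i * epsq R (H i) (m.2 i)
  let Ψ : (M → L) →ₗ[Lᵐᵒᵖ] (a ⊕ T → L) :=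
    { toFun := fun F => Sum.elim (fun j => F (Pi.single j 1, 0))
        (fun i => F (0, Pi.single (i : I) (Submodule.Quotient.mk 1)))
      map_add' := by
        intro F F'
        ext (j | i) <;> rfl
      map_smul' := by
        intro r F
        ext (j | i) <;> rfl }
  have key := finrank_Z1_ge_abs ρ (D₂ := D₂) (dd H D₁ E) ag ?_ ?_
    (v₀, fun i => Submodule.Quotient.mk (x₀ i)) h0 ?_ ?_ Ψ ?_
  · rw [Fintype.card_sum, Fintype.card_coe] at key
    exact key
  · intro m m'
    simp only [ag, Prod.fst_add, Prod.snd_add, Pi.add_apply, map_add, mul_add,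
      Finset.sum_add_distrib]
    ring
  · intro x m
    simp only [ag, Prod.smul_fst, Prod.smul_snd, Pi.smul_apply, map_smulₛₗ, smul_eq_mul,
      Pool.Agent.Helper28.HG.counit_mul, eps_apply, mul_add, Finset.mul_sum]
    congr 1
    · refine Finset.sum_congr rfl fun j _ => ?_
      ring
    · refine Finset.sum_congr rfl fun j _ => ?_
      ring
  · rintro ⟨v, xq⟩
    have hs : ∀ i, ∃ x : MonoidAlgebra R G, Submodule.Quotient.mk x = xq i := fun i =>
      Submodule.Quotient.mk_surjective _ (xq i)
    choose x hx using hs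
    have hx' : xq = fun i => Submodule.Quotient.mk (x i) := by
      funext i
      exact (hx i).symm
    subst hx'
    refine (h1 v x).trans ?_
    constructor
    · rintro ⟨w, hw1, hw2⟩
      refine ⟨w, ?_⟩
      rw [dd_apply, hw1]
      congr 1
      funext i
      exact (Submodule.Quotient.eq _).2 (hw2 i)
    · rintro ⟨w, hw⟩
      rw [dd_apply] at hw
      refine ⟨w, congrArg Prod.fst hw, fun i => ?_⟩
      exact (Submodule.Quotient.eq _).1 (congrFun (congrArg Prod.snd hw) i)
  · intro w
    refine Iff.trans ?_ (h2 w)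
    rw [dd_apply]
    constructor
    · intro hw
      refine ⟨congrArg Prod.fst hw, fun i => ?_⟩
      exact (Submodule.Quotient.mk_eq_zero _).1 (congrFun (congrArg Prod.snd hw) i)
    · rintro ⟨hw1, hw2⟩
      rw [hw1]
      refine Prod.ext rfl ?_
      funext i
      exact (Submodule.Quotient.mk_eq_zero _).2 (hw2 i)
  · intro F hadd hsm hF
    have hF1 : ∀ j, F (Pi.single j 1, 0) = 0 := fun j => congrFun hF (Sum.inl j)
    have hF2 : ∀ i, F (0, Pi.single i (Submodule.Quotient.mk 1)) = 0 := by
      intro i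
      by_cases hi : i ∈ T
      · exact congrFun hF (Sum.inr ⟨i, hi⟩)
      · obtain ⟨g, hg, hg1⟩ := hT i hi
        have h3 := hsm (MonoidAlgebra.single g 1) (0, Pi.single i (Submodule.Quotient.mk 1))
        have h4 : (MonoidAlgebra.single g (1 : R)) •
            ((0, Pi.single i (Submodule.Quotient.mk 1)) : M) =
            (0, Pi.single i (Submodule.Quotient.mk 1)) := by
          refine Prod.ext (smul_zero _) ?_
          show (MonoidAlgebra.single g (1 : R)) •
            (Pi.single i (Submodule.Quotient.mk 1) :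
              (i : I) → MonoidAlgebra R G ⧸ augIdeal R (H i)) =
            Pi.single i (Submodule.Quotient.mk 1)
          rw [← Pi.single_smul]
          congr 1
          rw [← Submodule.Quotient.mk_smul, smul_eq_mul, mul_one]
          exact (Submodule.Quotient.eq _).2 (Submodule.subset_span ⟨g, hg, rfl⟩)
        rw [h4, ex_single, one_smul] at h3
        have h5 : (ρ g - 1) * F (0, Pi.single i (Submodule.Quotient.mk 1)) = 0 := by
          rw [sub_mul, one_mul, ← h3, sub_self]
        exact (mul_eq_zero.1 h5).resolve_left (sub_ne_zero.2 hg1)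
    let Fh : M →+ L := AddMonoidHom.mk' F hadd
    funext m
    obtain ⟨v, xq⟩ := m
    have hs : ∀ i, ∃ x : MonoidAlgebra R G, Submodule.Quotient.mk x = xq i := fun i =>
      Submodule.Quotient.mk_surjective _ (xq i)
    choose x hx using hs
    have h6 : ((v, xq) : M) = ∑ j, v j • ((Pi.single j 1, 0) : M) +
        ∑ i, x i • ((0, Pi.single i (Submodule.Quotient.mk 1)) : M) := by
      refine Prod.ext ?_ ?_
      · rw [Prod.fst_add, Prod.fst_sum, Prod.fst_sum]
        funext j
        simp [Pi.single_apply]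
      · rw [Prod.snd_add, Prod.snd_sum, Prod.snd_sum]
        simp only [Prod.smul_snd, smul_zero, Finset.sum_const_zero, zero_add]
        have h7 : ∀ i, x i • (Pi.single i (Submodule.Quotient.mk 1) :
            (i : I) → MonoidAlgebra R G ⧸ augIdeal R (H i)) = Pi.single i (xq i) := by
          intro i
          rw [← Pi.single_smul, ← Submodule.Quotient.mk_smul, smul_eq_mul, mul_one, hx]
        simp only [h7]
        exact (Finset.univ_sum_single xq).symm
    show Fh (v, xq) = 0
    rw [h6, map_add, map_sum, map_sum]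
    have h8 : ∀ j ∈ Finset.univ, Fh (v j • ((Pi.single j 1, 0) : M)) = 0 := by
      intro j _
      show F _ = 0
      rw [hsm, hF1, mul_zero]
    have h9 : ∀ i ∈ Finset.univ, Fh (x i • ((0, Pi.single i (Submodule.Quotient.mk 1)) : M)) = 0 := by
      intro i _
      show F _ = 0
      rw [hsm, hF2, mul_zero]
    rw [Finset.sum_eq_zero h8, Finset.sum_eq_zero h9, add_zero]

end

/-- the Euler characteristic inequality over a division ring for a pair -/
theorem finrank_add_ge_rel {R : Type} [CommRing R] {G : Type} [Group G] {L : Type} [DivisionRing L]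
    [Algebra R L] (w : G →* ℤˣ) (ρ : G →* L) {a b c d e I : Type} [Fintype a]
    [Fintype b] [Fintype c] [Fintype d] [Fintype e] [Fintype I] (H : I → Subgroup G)
    {D₁ : Matrix b a (MonoidAlgebra R G)} {D₂ : Matrix c b (MonoidAlgebra R G)}
    {D₃ : Matrix d c (MonoidAlgebra R G)} {D₄ : Matrix e d (MonoidAlgebra R G)}
    {E : Matrix d I (MonoidAlgebra R G)}
    (h : IsStart D₁ D₂) (h' : IsRelStart H (dual w D₄) E (dual w D₃)) (h0 : D₃ * D₂ = 0)
    (T : Finset I) (hT : ∀ i, i ∉ T → ∃ g ∈ H i, opp w ρ g ≠ 1)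
    [Module.Finite Lᵐᵒᵖ (Z1 ρ)] [Module.Finite Lᵐᵒᵖᵐᵒᵖ (Z1 (opp w ρ))] :
    2 + (Fintype.card b + Fintype.card d) ≤
      Module.finrank Lᵐᵒᵖ (Z1 ρ) + Module.finrank Lᵐᵒᵖᵐᵒᵖ (Z1 (opp w ρ)) +
        (Fintype.card a + Fintype.card c + Fintype.card e) + T.card := by
  have h1 := finrank_Z1_ge ρ h
  have h2 := finrank_Z1_ge_rel (opp w ρ) H h' T hT
  have h3 := orth (LinearMap.range (mp (opp w ρ) (dual w D₃))) (LinearMap.range (mp ρ D₂)) (by
    rintro _ ⟨z', rfl⟩ _ ⟨z, rfl⟩
    exact pairing w ρ h0 z' z)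
  omega

end Pool.Agent.Helper32.RF
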