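import Pool.Agent.Helper35.SH.Ineq
import Pool.Agent.Helper32.RF.Rel
set_option autoImplicit false

/-!
The dimension estimate for crossed homomorphisms with coefficients in a matrix representation, for
an exact sequence `R[G]^c → R[G]^b → M → R → 0` with an arbitrary module `M`, and the inequality for
Poincaré duality pairs.
-/

open Matrix
open Pool.Agent.Helper35.SH

namespace Pool.Agent.Helper32.RF

variable {R : Type} [CommRing R] {G : Type} [Group G] {F : Type} [Field F] [Algebra R F]
  {ι : Type} [Fintype ι] [DecidableEq ι]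

/-- the dimension estimate -/
theorem finrank_Z1_ge_absF {b c M V : Type} [Fintype b] [Fintype c]
    [AddCommGroup M] [Module (MonoidAlgebra R G) M] [AddCommGroup V] [Module F V]
    [FiniteDimensional F V] (ρ : G →* Matrix ι ι F)
    {D₂ : Matrix c b (MonoidAlgebra R G)}
    (d1 : (b → MonoidAlgebra R G) →ₗ[MonoidAlgebra R G] M) (ag : M → R)
    (ag_add : ∀ m m', ag (m + m') = ag m + ag m')
    (ag_smul : ∀ (x : MonoidAlgebra R G) m, ag (x • m) = Coalgebra.counit x * ag m)
    (p₀ : M) (hp₀ : ag p₀ = 1) (h1 : ∀ m, ag m = 0 ↔ ∃ w, d1 w = m)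
    (h2 : ∀ w, d1 w = 0 ↔ ∃ u : c → MonoidAlgebra R G, u ᵥ* D₂ = w)
    (Ψ : (M → ι → F) →ₗ[F] V) (W₀ : Submodule F V)
    (hΨ : ∀ f : M → ι → F, (∀ m m', f (m + m') = f m + f m') →
      (∀ (x : MonoidAlgebra R G) m, f (x • m) = ext ρ x *ᵥ f m) → Ψ f ∈ W₀ ∧ (Ψ f = 0 → f = 0))
    [FiniteDimensional F (Z1 ρ)] :
    Fintype.card b * Fintype.card ι + Fintype.card ι ≤
      Module.finrank F (Z1 ρ) + (blk ρ D₂).rank + Module.finrank F W₀ := by
  classical
  let cst : R → MonoidAlgebra R G := fun r => algebraMap R _ r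
  have hcst : ∀ r, (Coalgebra.counit (cst r) : R) = r := fun r => by
    have h3 : cst r = r • (MonoidAlgebra.single (1 : G) (1 : R)) := by
      simp only [cst, Algebra.algebraMap_eq_smul_one]
      rfl
    rw [h3, map_smul, counit_single_one, smul_eq_mul, mul_one]
  have hcc : ∀ r r', cst (r * r') = cst r * cst r' := fun r r' => map_mul _ _ _
  have hca : ∀ r r', cst (r + r') = cst r + cst r' := fun r r' => map_add _ _ _
  have hc1 : cst 1 = 1 := map_one _
  have hc0 : cst 0 = 0 := map_zero _
  have hcomm : ∀ r x, cst r * x = x * cst r := fun r x => Algebra.commutes r x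
  have hexc : ∀ r, ∀ y : ι → F, ext ρ (cst r) *ᵥ y = r • y := fun r y => by
    simp only [cst, AlgHom.commutes]
    rw [Algebra.algebraMap_eq_smul_one, Matrix.smul_mulVec, Matrix.one_mulVec]
  -- a lift
  have ag_sub : ∀ m m', ag (m - m') = ag m - ag m' := by
    intro m m'
    have h3 := ag_add (m - m') m'
    rw [sub_add_cancel] at h3
    rw [h3, add_sub_cancel_right]
  have hex : ∀ m : M, ∃ w : b → MonoidAlgebra R G, d1 w = m - cst (ag m) • p₀ := by
    intro m
    refine (h1 _).1 ?_
    rw [ag_sub, ag_smul, hp₀, hcst, mul_one, sub_self]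
  choose W hW using hex
  have hker : ∀ (z : b × ι → F), blk ρ D₂ *ᵥ z = 0 → ∀ w w' : b → MonoidAlgebra R G,
      d1 w = d1 w' → ev ρ z w = ev ρ z w' := by
    intro z hz w w' hww
    have h3 : d1 (w - w') = 0 := by rw [map_sub, hww, sub_self]
    obtain ⟨u, hu⟩ := (h2 _).1 h3
    have h4 : ev ρ z (w - w') = 0 := by
      rw [← hu, ev_vecMul, hz, ev_zero_left]
    rw [ev_sub, sub_eq_zero] at h4
    exact h4
  -- the crossed homomorphism
  let sg : G → MonoidAlgebra R G := fun g => MonoidAlgebra.single g 1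
  have hsg : ∀ g h, sg (g * h) = sg g * sg h := fun g h => by
    simp [sg, MonoidAlgebra.single_mul_single]
  have haug : ∀ g, ag (sg g • p₀) = 1 := fun g => by
    rw [ag_smul, counit_single_one, hp₀, mul_one]
  have hext : ∀ g, ext ρ (sg g) = ρ g := fun g => by
    rw [ext_single, one_smul]
  let C : (b × ι → F) → G → ι → F := fun z g => ev ρ z (W (sg g • p₀))
  have hC : ∀ z, blk ρ D₂ *ᵥ z = 0 → ∀ g h, C z (g * h) = C z g + ρ g *ᵥ C z h := by
    intro z hz g h
    have h3 : C z (g * h) = ev ρ z (W (sg g • p₀) + sg g • W (sg h • p₀)) := by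
      refine hker z hz _ _ ?_
      rw [map_add, map_smul, hW, hW, hW, haug, haug, haug, hsg, mul_smul, hc1, one_smul, smul_sub]
      abel
    rw [h3, ev_add, ev_smul, hext]
  -- the linear map
  let K := LinearMap.ker (blk ρ D₂).mulVecLin
  have hK : ∀ z : K, blk ρ D₂ *ᵥ (z : b × ι → F) = 0 := fun z => z.2
  let Θ : (K × (ι → F)) →ₗ[F] Z1 ρ :=
    { toFun := fun x => ⟨fun g => C x.1 g + (ρ g *ᵥ x.2 - x.2), by
        intro g h
        simp only [hC _ (hK x.1) g h, map_mul, Matrix.mulVec_add, Matrix.mulVec_sub,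
          Matrix.mulVec_mulVec]
        abel⟩
      map_add' := by
        intro x y
        ext g : 2
        simp only [Prod.fst_add, Prod.snd_add, Submodule.coe_add, C, ev_add_left,
          Matrix.mulVec_add, Pi.add_apply]
        abel
      map_smul' := by
        intro r x
        ext g : 2
        simp only [Prod.smul_fst, Prod.smul_snd, Submodule.coe_smul, C, ev_smul_left,
          Matrix.mulVec_smul, Pi.smul_apply, RingHom.id_apply, smul_add, smul_sub] }
  -- the extension lemma
  have hF : ∀ (z : b × ι → F) (u' : ι → F), blk ρ D₂ *ᵥ z = 0 →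
      (∀ g, C z g = ρ g *ᵥ u' - u') →
      (∀ m m', ev ρ z (W (m + m')) + ag (m + m') • u' =
        (ev ρ z (W m) + ag m • u') + (ev ρ z (W m') + ag m' • u')) ∧
      (∀ (x : MonoidAlgebra R G) m, ev ρ z (W (x • m)) + ag (x • m) • u' =
        ext ρ x *ᵥ (ev ρ z (W m) + ag m • u')) := by
    intro z u' hz hCz
    have hadd : ∀ m m', ev ρ z (W (m + m')) + ag (m + m') • u' =
        (ev ρ z (W m) + ag m • u') + (ev ρ z (W m') + ag m' • u') := by
      intro m m'
      have h3 : ev ρ z (W (m + m')) = ev ρ z (W m + W m') := by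
        refine hker z hz _ _ ?_
        rw [map_add, hW, hW, hW, ag_add, hca, add_smul]
        abel
      rw [h3, ev_add, ag_add, add_smul]
      abel
    refine ⟨hadd, ?_⟩
    intro x m
    induction x using MonoidAlgebra.induction_linear with
    | zero =>
      have h3 : ev ρ z (W ((0 : MonoidAlgebra R G) • m)) =
          ev ρ z (0 : b → MonoidAlgebra R G) := by
        refine hker z hz _ _ ?_
        rw [hW, ag_smul, map_zero, zero_mul, hc0, zero_smul, zero_smul, sub_zero, map_zero]
      rw [h3, ev_zero, ag_smul]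
      simp
    | add x y hx hy => rw [add_smul, hadd, hx, hy, map_add, Matrix.add_mulVec]
    | single g q =>
      have e1 : (MonoidAlgebra.single g q : MonoidAlgebra R G) = cst q * sg g := by
        simp only [sg, cst, Algebra.algebraMap_eq_smul_one, smul_mul_assoc, one_mul,
          MonoidAlgebra.smul_single, smul_eq_mul, mul_one]
      have ec : (Coalgebra.counit (cst q * sg g) : R) = q := by
        rw [Pool.Agent.Helper28.HG.counit_mul, hcst, counit_single_one, mul_one]
      have h3 : ev ρ z (W ((cst q * sg g) • m)) =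
          ev ρ z ((cst q * sg g) • W m + cst (q * ag m) • W (sg g • p₀)) := by
        refine hker z hz _ _ ?_
        rw [map_add, map_smul, map_smul, hW, hW, hW, haug, ag_smul, ec, hc1, one_smul, smul_sub,
          smul_sub, ← mul_smul (cst q * sg g) (cst (ag m)) p₀,
          ← mul_smul (cst (q * ag m)) (sg g) p₀, hcc, mul_assoc (cst q) (sg g) (cst (ag m)),
          ← hcomm (ag m) (sg g), mul_assoc (cst q) (cst (ag m)) (sg g)]
        abel
      rw [e1, h3, ev_add, ev_smul, ev_smul, ag_smul, ec, map_mul, hext, hexc]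
      have h4 : ev ρ z (W (sg g • p₀)) = ρ g *ᵥ u' - u' := hCz g
      rw [h4, ← Matrix.mulVec_mulVec, ← Matrix.mulVec_mulVec, hexc, hexc, Matrix.mulVec_add,
        Matrix.mulVec_smul, smul_add, smul_sub, smul_smul]
      abel
  -- the second linear map
  let Λ : (K × (ι → F)) →ₗ[F] (M → ι → F) :=
    { toFun := fun x m => ev ρ (x.1 : b × ι → F) (W m) - ag m • x.2
      map_add' := by
        intro x y
        funext j
        simp only [Prod.fst_add, Prod.snd_add, Submodule.coe_add, ev_add_left, Pi.add_apply,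
          smul_add]
        abel
      map_smul' := by
        intro r x
        funext j
        simp only [Prod.smul_fst, Prod.smul_snd, Submodule.coe_smul, ev_smul_left, Pi.smul_apply,
          RingHom.id_apply, smul_sub, smul_comm r (ag j)] }
  have hinj : ∀ x ∈ LinearMap.ker Θ, Ψ (Λ x) ∈ W₀ ∧ (Ψ (Λ x) = 0 → x = 0) := by
    intro x hx
    have hx' : Θ x = 0 := hx
    have h3 : ∀ g, C x.1 g = ρ g *ᵥ (-x.2) - (-x.2) := by
      intro g
      have h4 : C x.1 g + (ρ g *ᵥ x.2 - x.2) = 0 := by
        have := congrArg (fun y : Z1 ρ => (y : G → ι → F) g) hx'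
        exact this
      rw [Matrix.mulVec_neg, eq_neg_of_add_eq_zero_left h4]
      abel
    obtain ⟨h5, h6⟩ := hF x.1 (-x.2) (hK x.1) h3
    have h7 : ∀ m, Λ x m = ev ρ (x.1 : b × ι → F) (W m) + ag m • (-x.2) := by
      intro m
      show ev ρ (x.1 : b × ι → F) (W m) - ag m • x.2 = _
      rw [smul_neg, sub_eq_add_neg]
    obtain ⟨h8, h8'⟩ := hΨ (Λ x) (fun m m' => by
        rw [h7, h7, h7]
        exact h5 m m') (fun y m => by
        rw [h7, h7]
        exact h6 y m)
    refine ⟨h8, fun h0 => ?_⟩
    have h9 : ∀ m, ev ρ (x.1 : b × ι → F) (W m) + ag m • (-x.2) = 0 := fun m => by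
      rw [← h7, h8' h0]
      rfl
    ext1
    · refine Subtype.ext ?_
      funext ⟨j, p⟩
      have h10 := h9 (d1 (Pi.single j 1))
      have h11 : ag (d1 (Pi.single j 1 : b → MonoidAlgebra R G)) = 0 := (h1 _).2 ⟨_, rfl⟩
      have h12 : ev ρ (x.1 : b × ι → F) (W (d1 (Pi.single j 1))) =
          ev ρ (x.1 : b × ι → F) (Pi.single j (1 : MonoidAlgebra R G)) := by
        refine hker _ (hK x.1) _ _ ?_
        rw [hW, h11, hc0, zero_smul, sub_zero]
      rw [h12, h11, zero_smul, add_zero, ev_single] at h10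
      exact congrFun h10 p
    · have h10 := h9 p₀
      have h12 : ev ρ (x.1 : b × ι → F) (W p₀) =
          ev ρ (x.1 : b × ι → F) (0 : b → MonoidAlgebra R G) := by
        refine hker _ (hK x.1) _ _ ?_
        rw [hW, hp₀, hc1, one_smul, sub_self, map_zero]
      rw [h12, ev_zero, zero_add, hp₀, one_smul] at h10
      exact neg_eq_zero.1 h10
  -- count dimensions
  have d1' := LinearMap.finrank_range_add_finrank_ker Θ
  have d2 : Module.finrank F (LinearMap.range Θ) ≤ Module.finrank F (Z1 ρ) :=
    Submodule.finrank_le _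
  have d3 : Module.finrank F (LinearMap.ker Θ) ≤ Module.finrank F W₀ := by
    refine LinearMap.finrank_le_finrank_of_injective
      (f := (Ψ.comp (Λ.comp (LinearMap.ker Θ).subtype)).codRestrict W₀
        (fun x => (hinj x x.2).1)) ?_
    refine (injective_iff_map_eq_zero _).2 ?_
    intro x hx
    exact Subtype.ext ((hinj x x.2).2 (congrArg Subtype.val hx))
  have d4 := LinearMap.finrank_range_add_finrank_ker (blk ρ D₂).mulVecLin
  have d5 : Module.finrank F (K × (ι → F)) = Module.finrank F K + Fintype.card ι := by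
    rw [Module.finrank_prod, Module.finrank_pi]
  have d7 : Module.finrank F (b × ι → F) = Fintype.card b * Fintype.card ι := by
    rw [Module.finrank_pi, Fintype.card_prod]
  have d8 : (blk ρ D₂).rank = Module.finrank F (LinearMap.range (blk ρ D₂).mulVecLin) := rfl
  have d9 : Module.finrank F K = Module.finrank F (LinearMap.ker (blk ρ D₂).mulVecLin) := rfl
  omega

/-- the invariants of a subgroup -/
def inv (ρ : G →* Matrix ι ι F) (H : Subgroup G) : Submodule F (ι → F) where
  carrier := {v | ∀ h ∈ H, ρ h *ᵥ v = v}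
  add_mem' := by
    intro v v' hv hv' h hh
    rw [Matrix.mulVec_add, hv h hh, hv' h hh]
  zero_mem' := by
    intro h _
    rw [Matrix.mulVec_zero]
  smul_mem' := by
    intro r v hv h hh
    rw [Matrix.mulVec_smul, hv h hh]

end Pool.Agent.Helper32.RF
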