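import Pool.Agent.Helper32.RF.AbsF
set_option autoImplicit false

/-!
The inequality between the Euler characteristic of a Poincaré duality pair and the dimensions of the
spaces of crossed homomorphisms with coefficients in a matrix representation.
-/

open Matrix
open Pool.Agent.Helper35.SH

namespace Pool.Agent.Helper32.RF

variable {R : Type} [CommRing R] {G : Type} [Group G] {F : Type} [Field F] [Algebra R F]
  {ι : Type} [Fintype ι] [DecidableEq ι]

/-- the dimension estimate for a pair -/
theorem finrank_Z1_ge_relF {a b c I : Type} [Fintype a] [Fintype b] [Fintype c] [Fintype I]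
    (ρ : G →* Matrix ι ι F) (H : I → Subgroup G)
    {D₁ : Matrix b a (MonoidAlgebra R G)} {E : Matrix b I (MonoidAlgebra R G)}
    {D₂ : Matrix c b (MonoidAlgebra R G)} (h : IsRelStart H D₁ E D₂)
    [FiniteDimensional F (Z1 ρ)] :
    Fintype.card b * Fintype.card ι + Fintype.card ι ≤
      Module.finrank F (Z1 ρ) + (blk ρ D₂).rank +
        (Fintype.card a * Fintype.card ι + ∑ i, Module.finrank F (inv ρ (H i))) := by
  classical
  obtain ⟨⟨t, s, ⟨v₀, x₀, h0⟩, h1⟩, h2⟩ := h
  let M := (a → MonoidAlgebra R G) × ((i : I) → MonoidAlgebra R G ⧸ augIdeal R (H i))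
  let ag : M → R := fun m => ∑ j, t j * Coalgebra.counit (m.1 j) + ∑ i, s i * epsq R (H i) (m.2 i)
  let V := (a → ι → F) × (I → ι → F)
  let Ψ : (M → ι → F) →ₗ[F] V :=
    { toFun := fun f => (fun j => f (Pi.single j 1, 0),
        fun i => f (0, Pi.single i (Submodule.Quotient.mk 1)))
      map_add' := fun f f' => rfl
      map_smul' := fun r f => rfl }
  let W₀ : Submodule F V :=
    { carrier := {x | ∀ i, x.2 i ∈ inv ρ (H i)}
      add_mem' := fun hx hy i => (inv ρ (H i)).add_mem (hx i) (hy i)
      zero_mem' := fun i => (inv ρ (H i)).zero_mem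
      smul_mem' := fun r x hx i => (inv ρ (H i)).smul_mem r (hx i) }
  have key := finrank_Z1_ge_absF ρ (D₂ := D₂) (dd H D₁ E) ag ?_ ?_
    (v₀, fun i => Submodule.Quotient.mk (x₀ i)) h0 ?_ ?_ Ψ W₀ ?_
  · have hle : Module.finrank F W₀ ≤
        Module.finrank F ((a → ι → F) × ((i : I) → inv ρ (H i))) := by
      let q : W₀ →ₗ[F] (a → ι → F) × ((i : I) → inv ρ (H i)) :=
        { toFun := fun x => (x.1.1, fun i => ⟨x.1.2 i, x.2 i⟩)
          map_add' := fun _ _ => rfl
          map_smul' := fun _ _ => rfl }
      refine LinearMap.finrank_le_finrank_of_injective (f := q) ?_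
      intro x y hxy
      have hxy1 : (x.1.1 : a → ι → F) = y.1.1 := congrArg (fun z => z.1) hxy
      have hxy2 : ∀ i, x.1.2 i = y.1.2 i := fun i =>
        congrArg (fun z : (a → ι → F) × ((i : I) → inv ρ (H i)) => (z.2 i : ι → F)) hxy
      exact Subtype.ext (Prod.ext hxy1 (funext hxy2))
    have e1 : Module.finrank F (a → ι → F) = Fintype.card a * Fintype.card ι := by
      rw [Module.finrank_pi_fintype]
      simp
    have e2 : Module.finrank F ((i : I) → inv ρ (H i)) =
        ∑ i, Module.finrank F (inv ρ (H i)) := Module.finrank_pi_fintype F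
    rw [Module.finrank_prod, e1, e2] at hle
    omega
  · intro m m'
    simp only [ag, Prod.fst_add, Prod.snd_add, Pi.add_apply, map_add, mul_add,
      Finset.sum_add_distrib]
    ring
  · intro x m
    simp only [ag, Prod.smul_fst, Prod.smul_snd, Pi.smul_apply, map_smulₛₗ, smul_eq_mul,
      Pool.Agent.Helper28.HG.counit_mul, eps_apply, mul_add, Finset.mul_sum]
    congr 1
    · refine Finset.sum_congr rfl fun j _ => ?_
      ring
    · refine Finset.sum_congr rfl fun j _ => ?_
      ring
  · rintro ⟨v, xq⟩
    have hs : ∀ i, ∃ x : MonoidAlgebra R G, Submodule.Quotient.mk x = xq i := fun i =>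
      Submodule.Quotient.mk_surjective _ (xq i)
    choose x hx using hs
    have hx' : xq = fun i => Submodule.Quotient.mk (x i) := by
      funext i
      exact (hx i).symm
    subst hx'
    refine (h1 v x).trans ?_
    constructor
    · rintro ⟨w, hw1, hw2⟩
      refine ⟨w, ?_⟩
      rw [dd_apply, hw1]
      congr 1
      funext i
      exact (Submodule.Quotient.eq _).2 (hw2 i)
    · rintro ⟨w, hw⟩
      rw [dd_apply] at hw
      refine ⟨w, congrArg Prod.fst hw, fun i => ?_⟩
      exact (Submodule.Quotient.eq _).1 (congrFun (congrArg Prod.snd hw) i)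
  · intro w
    refine Iff.trans ?_ (h2 w)
    rw [dd_apply]
    constructor
    · intro hw
      refine ⟨congrArg Prod.fst hw, fun i => ?_⟩
      exact (Submodule.Quotient.mk_eq_zero _).1 (congrFun (congrArg Prod.snd hw) i)
    · rintro ⟨hw1, hw2⟩
      rw [hw1]
      refine Prod.ext rfl ?_
      funext i
      exact (Submodule.Quotient.mk_eq_zero _).2 (hw2 i)
  · intro f hadd hsm
    constructor
    · intro i g hg
      show ρ g *ᵥ f (0, Pi.single i (Submodule.Quotient.mk 1)) =
        f (0, Pi.single i (Submodule.Quotient.mk 1))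
      have h3 := hsm (MonoidAlgebra.single g 1) (0, Pi.single i (Submodule.Quotient.mk 1))
      have h4 : (MonoidAlgebra.single g (1 : R)) •
          ((0, Pi.single i (Submodule.Quotient.mk 1)) : M) =
          (0, Pi.single i (Submodule.Quotient.mk 1)) := by
        refine Prod.ext (smul_zero _) ?_
        show (MonoidAlgebra.single g (1 : R)) •
          (Pi.single i (Submodule.Quotient.mk 1) :
            (i : I) → MonoidAlgebra R G ⧸ augIdeal R (H i)) =
          Pi.single i (Submodule.Quotient.mk 1)
        rw [← Pi.single_smul]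
        congr 1
        rw [← Submodule.Quotient.mk_smul, smul_eq_mul, mul_one]
        exact (Submodule.Quotient.eq _).2 (Submodule.subset_span ⟨g, hg, rfl⟩)
      rw [h4, ext_single, one_smul] at h3
      exact h3.symm
    · intro hF
      have hF1 : ∀ j, f (Pi.single j 1, 0) = 0 := fun j => congrFun (congrArg Prod.fst hF) j
      have hF2 : ∀ i, f (0, Pi.single i (Submodule.Quotient.mk 1)) = 0 := fun i =>
        congrFun (congrArg Prod.snd hF) i
      let Fh : M →+ (ι → F) := AddMonoidHom.mk' f hadd
      funext m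
      obtain ⟨v, xq⟩ := m
      have hs : ∀ i, ∃ x : MonoidAlgebra R G, Submodule.Quotient.mk x = xq i := fun i =>
        Submodule.Quotient.mk_surjective _ (xq i)
      choose x hx using hs
      have h6 : ((v, xq) : M) = ∑ j, v j • ((Pi.single j 1, 0) : M) +
          ∑ i, x i • ((0, Pi.single i (Submodule.Quotient.mk 1)) : M) := by
        refine Prod.ext ?_ ?_
        · rw [Prod.fst_add, Prod.fst_sum, Prod.fst_sum]
          funext j
          simp [Pi.single_apply]
        · rw [Prod.snd_add, Prod.snd_sum, Prod.snd_sum]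
          simp only [Prod.smul_snd, smul_zero, Finset.sum_const_zero, zero_add]
          have h7 : ∀ i, x i • (Pi.single i (Submodule.Quotient.mk 1) :
              (i : I) → MonoidAlgebra R G ⧸ augIdeal R (H i)) = Pi.single i (xq i) := by
            intro i
            rw [← Pi.single_smul, ← Submodule.Quotient.mk_smul, smul_eq_mul, mul_one, hx]
          simp only [h7]
          exact (Finset.univ_sum_single xq).symm
      show Fh (v, xq) = 0
      rw [h6, map_add, map_sum, map_sum]
      have h8 : ∀ j ∈ Finset.univ, Fh (v j • ((Pi.single j 1, 0) : M)) = 0 := by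
        intro j _
        show f _ = 0
        rw [hsm, hF1, Matrix.mulVec_zero]
      have h9 : ∀ i ∈ Finset.univ,
          Fh (x i • ((0, Pi.single i (Submodule.Quotient.mk 1)) : M)) = 0 := by
        intro i _
        show f _ = 0
        rw [hsm, hF2, Matrix.mulVec_zero]
      rw [Finset.sum_eq_zero h8, Finset.sum_eq_zero h9, add_zero]

/-- `dim Z¹(G;V) + dim Z¹(G;V*) + ∑ᵢ dim (V*)^{Hᵢ} ≥ (2 - χ) dim V` -/
theorem finrank_add_finrank_ge_rel [Group.FG G] (w : G →* ℤˣ) (ρ : G →* Matrix ι ι F)
    {a b c d e I : Type} [Fintype a]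
    [Fintype b] [Fintype c] [Fintype d] [Fintype e] [Fintype I] (H : I → Subgroup G)
    {D₁ : Matrix b a (MonoidAlgebra R G)} {D₂ : Matrix c b (MonoidAlgebra R G)}
    {D₃ : Matrix d c (MonoidAlgebra R G)} {D₄ : Matrix e d (MonoidAlgebra R G)}
    {E : Matrix d I (MonoidAlgebra R G)}
    (h : IsStart D₁ D₂) (h' : IsRelStart H (dual w D₄) E (dual w D₃)) (h0 : D₃ * D₂ = 0) :
    2 * Fintype.card ι + (Fintype.card b + Fintype.card d) * Fintype.card ι ≤
      Module.finrank F (Z1 ρ) + Module.finrank F (Z1 (contra w ρ)) +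
        (Fintype.card a + Fintype.card c + Fintype.card e) * Fintype.card ι +
        ∑ i, Module.finrank F (inv (contra w ρ) (H i)) := by
  classical
  have := finiteDimensional_Z1 ρ
  have := finiteDimensional_Z1 (contra w ρ)
  have h1 := finrank_Z1_ge ρ h
  have h2 := finrank_Z1_ge_relF (contra w ρ) H h'
  rw [blk_dual, contra_contra, Matrix.rank_transpose] at h2
  have h3 : (blk ρ D₃).rank + (blk ρ D₂).rank ≤ Fintype.card (c × ι) := by
    refine Matrix.rank_add_rank_le_card_of_mul_eq_zero ?_
    rw [← blk_mul, h0]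
    ext ⟨i, p⟩ ⟨j, q⟩
    simp [blk]
  rw [Fintype.card_prod] at h3
  rw [add_mul, add_mul, add_mul]
  omega

end Pool.Agent.Helper32.RF
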