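import Pool.Agent.Helper35.SH.Final
import Pool.Agent.Helper32.RF.RelF
set_option autoImplicit false

/-!
Poincaré duality pairs of dimension four with negative Euler characteristic.
-/

open Matrix Multiplicative
open Pool.Agent.Helper35.SH

namespace Pool.Agent.Helper32.RF

variable {R : Type} [CommRing R] [Algebra R ℚ] {G : Type} [Group G]

/-- a homomorphism onto the integers which does not vanish where a given additive map does not -/
lemma exists_phi' [Group.FG G] (c : G → ℚ) (hc : ∀ g h, c (g * h) = c g + c h) (g₀ : G)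
    (hg₀ : c g₀ ≠ 0) : ∃ (φ : G →* Multiplicative ℤ) (t : G), φ t = ofAdd 1 ∧
      ∀ g, c g ≠ 0 → (φ g).toAdd ≠ 0 := by
  classical
  obtain ⟨S, hS⟩ := Group.FG.out (G := G)
  obtain ⟨u, hu⟩ := closure_rat (S.finite_toSet.image c)
  have hc1 : c 1 = 0 := by
    have := hc 1 1
    rw [mul_one] at this
    exact left_eq_add.1 this
  have hcinv : ∀ g, c g⁻¹ = - c g := by
    intro g
    have := hc g⁻¹ g
    rw [inv_mul_cancel, hc1] at this
    linarith
  have h1 : ∀ g, c g ∈ AddSubgroup.zmultiples u := by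
    intro g
    rw [← hu]
    have hg : g ∈ Subgroup.closure (S : Set G) := by rw [hS]; trivial
    induction hg using Subgroup.closure_induction with
    | mem x hx => exact AddSubgroup.subset_closure ⟨x, hx, rfl⟩
    | one => rw [hc1]; exact AddSubgroup.zero_mem _
    | mul x y _ _ hx hy => rw [hc]; exact AddSubgroup.add_mem _ hx hy
    | inv x _ hx => rw [hcinv]; exact AddSubgroup.neg_mem _ hx
  have h2 : ∀ x ∈ AddSubgroup.closure (c '' (S : Set G)), ∃ t, c t = x := by
    intro x hmem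
    induction hmem using AddSubgroup.closure_induction with
    | mem x hx => obtain ⟨s, _, hs⟩ := hx; exact ⟨s, hs⟩
    | zero => exact ⟨1, hc1⟩
    | add x y _ _ hx hy =>
      obtain ⟨s, hs⟩ := hx
      obtain ⟨s', hs'⟩ := hy
      exact ⟨s * s', by rw [hc, hs, hs']⟩
    | neg x _ hx =>
      obtain ⟨s, hs⟩ := hx
      exact ⟨s⁻¹, by rw [hcinv, hs]⟩
  obtain ⟨t, ht⟩ := h2 u (by
    rw [hu]
    exact AddSubgroup.mem_zmultiples u)
  have h3 : ∀ g, ∃ z : ℤ, (z : ℚ) * u = c g := by
    intro g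
    obtain ⟨z, hz⟩ := AddSubgroup.mem_zmultiples_iff.1 (h1 g)
    exact ⟨z, by rw [← hz, zsmul_eq_mul]⟩
  choose z hz using h3
  have hu0 : u ≠ 0 := by
    rintro rfl
    apply hg₀
    rw [← hz, mul_zero]
  have hinj : ∀ x y : ℤ, (x : ℚ) * u = y * u → x = y := by
    intro x y h
    exact_mod_cast mul_right_cancel₀ hu0 h
  refine ⟨{ toFun := fun g => ofAdd (z g), map_one' := ?_, map_mul' := ?_ }, t, ?_, ?_⟩
  · have : z 1 = 0 := hinj _ _ (by rw [hz, hc1]; simp)
    rw [this]
    rfl
  · intro g h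
    have : z (g * h) = z g + z h := hinj _ _ (by
      push_cast
      rw [add_mul, hz, hz, hz, hc])
    rw [this]
    rfl
  · have : z t = 1 := hinj _ _ (by rw [hz, ht]; simp)
    show ofAdd (z t) = ofAdd 1
    rw [this]
  · intro g hg h0
    apply hg
    have h4 : z g = 0 := h0
    rw [← hz, h4, Int.cast_zero, zero_mul]

/-- the invariants of the cyclic permutation representation -/
lemma finrank_inv_perm_le (φ : G →* Multiplicative ℤ) (m : ℕ) [NeZero m] (H : Subgroup G) (h : G)
    (hh : h ∈ H) (h0 : (φ h).toAdd ≠ 0) :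
    Module.finrank ℚ (inv (perm φ m) H) ≤ ((φ h).toAdd).natAbs := by
  classical
  set d : ℤ := (φ h).toAdd with hd
  have hv : ∀ v : inv (perm φ m) H, ∀ p : ZMod m, (v : ZMod m → ℚ) (p + (d : ZMod m)) =
      (v : ZMod m → ℚ) p := by
    intro v p
    have h1 : perm φ m h *ᵥ (v : ZMod m → ℚ) = (v : ZMod m → ℚ) := v.2 h hh
    have h2 := congrFun h1 p
    rw [perm_mulVec] at h2
    exact h2
  have hn : ∀ v : inv (perm φ m) H, ∀ n : ℤ, ∀ p : ZMod m,
      (v : ZMod m → ℚ) (p + ((d * n : ℤ) : ZMod m)) = (v : ZMod m → ℚ) p := by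
    intro v n
    induction n using Int.induction_on with
    | zero => intro p; simp
    | succ i ih =>
      intro p
      rw [mul_add, mul_one, Int.cast_add, ← add_assoc, hv, ih]
    | pred i ih =>
      intro p
      have h3 := hv v (p + ((d * (-(i : ℤ) - 1) : ℤ) : ZMod m))
      rw [add_assoc, ← Int.cast_add] at h3
      have h4 : d * (-(i : ℤ) - 1) + d = d * (-(i : ℤ)) := by ring
      rw [h4, ih] at h3
      exact h3.symm
  let q : inv (perm φ m) H →ₗ[ℚ] (Fin d.natAbs → ℚ) :=
    { toFun := fun v j => (v : ZMod m → ℚ) ((j : ℕ) : ZMod m)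
      map_add' := fun _ _ => rfl
      map_smul' := fun _ _ => rfl }
  have hq : Function.Injective q := by
    refine (injective_iff_map_eq_zero _).2 ?_
    intro v hv0
    refine Subtype.ext ?_
    funext p
    obtain ⟨x, rfl⟩ := ZMod.intCast_surjective p
    have h5 : x = x % d + d * (x / d) := (Int.emod_add_mul_ediv x d).symm
    rw [h5, Int.cast_add, hn]
    have h6 : 0 ≤ x % d := Int.emod_nonneg x h0
    have h7 : x % d < d.natAbs := by
      rw [Int.natCast_natAbs]
      exact Int.emod_lt_abs x h0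
    have h8 : (x % d).toNat < d.natAbs := by omega
    have h9 := congrFun hv0 ⟨(x % d).toNat, h8⟩
    have h10 : (((x % d).toNat : ℕ) : ZMod m) = ((x % d : ℤ) : ZMod m) := by
      rw [← Int.cast_natCast, Int.toNat_of_nonneg h6]
    rw [← h10]
    exact h9
  have := LinearMap.finrank_le_finrank_of_injective (f := q) hq
  rwa [Module.finrank_fin_fun] at this

theorem large_of_negative_rel [Group.IsFinitelyPresented G] {a b c d e I : Type} [Fintype a]
    [Fintype b] [Fintype c] [Fintype d] [Fintype e] [Fintype I] (H : I → Subgroup G)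
    {D₁ : Matrix b a (MonoidAlgebra R G)} {D₂ : Matrix c b (MonoidAlgebra R G)}
    {D₃ : Matrix d c (MonoidAlgebra R G)} {D₄ : Matrix e d (MonoidAlgebra R G)}
    {E : Matrix d I (MonoidAlgebra R G)}
    (h : IsStart D₁ D₂) (h' : IsRelStart H (dual 1 D₄) E (dual 1 D₃)) (h0 : D₃ * D₂ = 0)
    (T : Finset I) (hT : ∀ i, i ∉ T → ∃ f : G →* Multiplicative ℤ, ∃ g ∈ H i, f g ≠ 1)
    (hχ : Fintype.card a + Fintype.card c + Fintype.card e + T.card <
      Fintype.card b + Fintype.card d) :
    ∃ K : Subgroup G, K.FiniteIndex ∧ ∃ f : K →* FreeGroup (Fin 2), Function.Surjective f := by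
  classical
  have hFG : Group.FG G := by
    obtain ⟨n, π, hπ, _⟩ := Group.IsFinitelyPresented.out (G := G)
    exact Group.fg_of_surjective hπ
  -- additive maps
  let P : Submodule ℚ (G → ℚ) :=
    { carrier := {c | ∀ g h, c (g * h) = c g + c h}
      add_mem' := by
        intro c c' hc hc' g h
        simp only [Pi.add_apply, hc g h, hc' g h]
        ring
      zero_mem' := by
        intro g h
        simp
      smul_mem' := by
        intro r c hc g h
        simp only [Pi.smul_apply, hc g h, smul_add] }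
  have hfP : ∀ f : G →* Multiplicative ℤ, (fun g => (((f g).toAdd : ℤ) : ℚ)) ∈ P := by
    intro f g h
    show (((f (g * h)).toAdd : ℤ) : ℚ) = ((f g).toAdd : ℤ) + ((f h).toAdd : ℤ)
    rw [map_mul, toAdd_mul, Int.cast_add]
  choose! f g hg hfg using hT
  have hfg' : ∀ i, i ∉ T → (((f i (g i)).toAdd : ℤ) : ℚ) ≠ 0 := by
    intro i hi h1
    apply hfg i hi
    have h2 : (f i (g i)).toAdd = 0 := by exact_mod_cast h1
    exact toAdd_eq_zero.1 h2
  -- a non-zero additive map
  obtain ⟨g₀, c₀, hc₀, hcg₀⟩ : ∃ (g₀ : G), ∃ c₀ ∈ P, c₀ g₀ ≠ 0 := by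
    by_cases hne : ∃ i, i ∉ T
    · obtain ⟨i, hi⟩ := hne
      exact ⟨g i, _, hfP (f i), hfg' i hi⟩
    · push Not at hne
      have h1 := finrank_add_finrank_ge_rel 1 (1 : G →* Matrix Unit Unit ℚ) H h h' h0
      have h2 : contra 1 (1 : G →* Matrix Unit Unit ℚ) = 1 := by
        ext g p q
        simp [contra]
      rw [h2, Fintype.card_unit] at h1
      have hfd := finiteDimensional_Z1 (1 : G →* Matrix Unit Unit ℚ)
      have h5 : ∑ i, Module.finrank ℚ (inv (1 : G →* Matrix Unit Unit ℚ) (H i)) ≤ T.card := by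
        have h6 : ∀ i ∈ Finset.univ,
            Module.finrank ℚ (inv (1 : G →* Matrix Unit Unit ℚ) (H i)) ≤ 1 := by
          intro i _
          refine (Submodule.finrank_le _).trans ?_
          rw [Module.finrank_pi, Fintype.card_unit]
        refine (Finset.sum_le_sum h6).trans ?_
        rw [Finset.sum_const, smul_eq_mul, mul_one]
        exact Finset.card_le_card fun i _ => hne i
      have h3 : 0 < Module.finrank ℚ (Z1 (1 : G →* Matrix Unit Unit ℚ)) := by omega
      obtain ⟨c, hc⟩ := (Module.finrank_pos_iff_exists_ne_zero).1 h3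
      have hc' : (c : G → Unit → ℚ) ≠ 0 := fun h => hc (Subtype.ext h)
      obtain ⟨g₀, hg₀⟩ := Function.ne_iff.1 hc'
      refine ⟨g₀, fun g => (c : G → Unit → ℚ) g (), ?_, ?_⟩
      · intro g h
        have := c.2 g h
        show (c : G → Unit → ℚ) (g * h) () = _
        rw [this]
        simp
      · intro h4
        apply hg₀
        ext
        exact h4
  -- a generic additive map
  obtain ⟨cc, hcP, hcg⟩ : ∃ c ∈ P, ∀ x ∈ insert g₀ ((Finset.univ \ T).image g), c x ≠ 0 := by
    let X : Finset G := insert g₀ ((Finset.univ \ T).image g)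
    have h1 := Module.Dual.exists_forall_mem_ne_zero_of_forall_exists (K := ℚ) P
      (f := fun x : X => (LinearMap.proj (x : G) : (G → ℚ) →ₗ[ℚ] ℚ)) ?_
    · obtain ⟨v, hv, hv'⟩ := h1
      exact ⟨v, hv, fun x hx => hv' ⟨x, hx⟩⟩
    · rintro ⟨x, hx⟩
      show ∃ v ∈ P, v x ≠ 0
      rw [Finset.mem_insert, Finset.mem_image] at hx
      rcases hx with rfl | ⟨i, hi, rfl⟩
      · exact ⟨c₀, hc₀, hcg₀⟩
      · refine ⟨_, hfP (f i), hfg' i ?_⟩
        exact (Finset.mem_sdiff.1 hi).2
  obtain ⟨φ, t, ht, hφ⟩ := exists_phi' cc hcP g₀ (hcg g₀ (Finset.mem_insert_self _ _))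
  have hφg : ∀ i, i ∉ T → (φ (g i)).toAdd ≠ 0 := fun i hi => hφ _ (hcg _ (by
    refine Finset.mem_insert_of_mem (Finset.mem_image_of_mem g ?_)
    exact Finset.mem_sdiff.2 ⟨Finset.mem_univ i, hi⟩))
  refine large_of_crossed φ t ht ?_
  intro S N
  let q : ℕ := ∑ i, ((φ (g i)).toAdd).natAbs
  let m : ℕ := 2 * (S.card * N) + q + 1
  have : NeZero m := ⟨by omega⟩
  refine ⟨m, by omega, ?_⟩
  have h1 := finrank_add_finrank_ge_rel 1 (perm φ m) H h h' h0
  rw [contra_perm, ZMod.card] at h1
  have hfd := finiteDimensional_Z1 (perm φ m)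
  have h5 : ∑ i, Module.finrank ℚ (inv (perm φ m) (H i)) ≤ q + T.card * m := by
    have h6 : ∀ i ∈ Finset.univ, Module.finrank ℚ (inv (perm φ m) (H i)) ≤
        ((φ (g i)).toAdd).natAbs + (if i ∈ T then m else 0) := by
      intro i _
      split_ifs with hi
      · have h7 := Submodule.finrank_le (inv (perm φ m) (H i))
        rw [Module.finrank_pi, ZMod.card] at h7
        omega
      · exact finrank_inv_perm_le φ m (H i) (g i) (hg i hi) (hφg i hi)
    refine (Finset.sum_le_sum h6).trans ?_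
    rw [Finset.sum_add_distrib, Finset.sum_ite_mem, Finset.univ_inter, Finset.sum_const,
      smul_eq_mul]
  let r : Z1 (perm φ m) →ₗ[ℚ] (ZMod m → ℚ) × (S × Fin N → ℚ) :=
    { toFun := fun c => ((c : G → ZMod m → ℚ) t, fun x => (c : G → ZMod m → ℚ) x.1 (x.2 : ℕ))
      map_add' := fun _ _ => rfl
      map_smul' := fun _ _ => rfl }
  have h2 : LinearMap.ker r ≠ ⊥ := by
    refine LinearMap.ker_ne_bot_of_finrank_lt ?_
    rw [Module.finrank_prod, Module.finrank_pi, Module.finrank_pi, ZMod.card, Fintype.card_prod,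
      Fintype.card_coe, Fintype.card_fin]
    have h3 : (Fintype.card a + Fintype.card c + Fintype.card e + T.card + 1) * m ≤
        (Fintype.card b + Fintype.card d) * m := Nat.mul_le_mul_right _ hχ
    rw [add_mul, one_mul, add_mul _ T.card] at h3
    have h4 : m = 2 * (S.card * N) + q + 1 := rfl
    omega
  obtain ⟨c, hcr, hc0⟩ := (Submodule.ne_bot_iff _).1 h2
  have hcr' : r c = 0 := hcr
  have hc' : (c : G → ZMod m → ℚ) ≠ 0 := fun h => hc0 (Subtype.ext h)
  obtain ⟨g₀, hg₀⟩ := Function.ne_iff.1 hc'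
  obtain ⟨p₀, hp₀⟩ := Function.ne_iff.1 hg₀
  refine ⟨c, ?_, ?_, ⟨g₀, p₀, hp₀⟩, ?_⟩
  · intro g h p
    have := congrFun (c.2 g h) p
    rw [this, Pi.add_apply, perm_mulVec]
  · intro p
    exact congrFun (congrArg Prod.fst hcr') p
  · intro s hs i hi
    exact congrFun (congrArg Prod.snd hcr') (⟨s, hs⟩, ⟨i, hi⟩)

end Pool.Agent.Helper32.RF
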