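import Pool.Agent.Helper32.RF.Rel
import Pool.Agent.Helper45.FH.Thm
import Pool.Agent.Helper45.FH.Main
set_option autoImplicit false

/-!
Division rings of all levels of the rational derived series which satisfy the Euler characteristic
inequality for a four-dimensional Poincaré duality pair.
-/

open Pool.Agent.Helper72.HG Pool.Agent.Helper35.SH MulOpposite Filter Pool.Agent.Helper45.FH

namespace Pool.Agent.Helper32.RF

theorem exists_levels {R : Type} [CommRing R] [Algebra R ℚ] {G : Type} [Group G] [Group.FG G]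
    (w : G →* ℤˣ)
    (hw : ∀ (g : G) (k : ℕ), 0 < k → g ^ k ∈ commutator G → w g = 1)
    {a₀ a₁ a₂ a₃ a₄ I : Type} [Fintype a₀]
    [Fintype a₁] [Fintype a₂] [Fintype a₃] [Fintype a₄] [Fintype I] (H : I → Subgroup G)
    {D₁ : Matrix a₁ a₀ (MonoidAlgebra R G)} {D₂ : Matrix a₂ a₁ (MonoidAlgebra R G)}
    {D₃ : Matrix a₃ a₂ (MonoidAlgebra R G)} {D₄ : Matrix a₄ a₃ (MonoidAlgebra R G)}
    {E : Matrix a₃ I (MonoidAlgebra R G)}
    (h : IsStart D₁ D₂) (h' : IsRelStart H (dual w D₄) E (dual w D₃)) (h0 : D₃ * D₂ = 0)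
    (T : Finset I) (hT : ∀ i, i ∉ T → ¬ H i ≤ rInf G) :
    ∃ (L : ℕ → Type) (_ : ∀ s, DivisionRing (L s)) (ρ : ∀ s, G ⧸ (rds G (s + 1)).1 →* L s),
      (∀ s, LinearIndependent ℤ (ρ s)) ∧
      ∀ᶠ s in ((hyperfilter ℕ : Ultrafilter ℕ) : Filter ℕ),
        2 + (Fintype.card a₁ + Fintype.card a₃) ≤
          2 * Module.finrank (L s)ᵐᵒᵖ (Z1 (sg ρ s)) +
            (Fintype.card a₀ + Fintype.card a₂ + Fintype.card a₄) + T.card := by
  obtain ⟨S, hS⟩ : ∃ S : Finset G, Subgroup.closure (S : Set G) = ⊤ :=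
    (Group.FG.out : (⊤ : Subgroup G).FG)
  obtain ⟨d, x, hx⟩ : ∃ (d : ℕ) (x : Fin d → G), Subgroup.closure (Set.range x) = ⊤ :=
    ⟨S.card, fun i => ((S.equivFin.symm i : S) : G), by
      rw [← hS]
      congr 1
      ext g
      simp only [Set.mem_range, Finset.mem_coe]
      constructor
      · rintro ⟨i, rfl⟩
        exact (S.equivFin.symm i).2
      · intro hg
        exact ⟨S.equivFin ⟨g, hg⟩, by simp⟩⟩
  have h1 : ∀ s : ℕ, ∃ (L : Type) (_ : DivisionRing L) (ρ : G ⧸ (rds G (s + 1)).1 →* L),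
      LinearIndependent ℤ ρ := fun s =>
    Pool.Agent.Helper75.HG.exists_divisionRing (tame_rds G (s + 1))
  choose L hL ρ hρ using h1
  have hL0 : ∀ s, CharZero (L s) := fun s => charZero_of_linearIndependent (ρ s) (hρ s)
  let hA : ∀ s, Algebra R (L s) := fun s =>
    ((algebraMap ℚ (L s)).comp (algebraMap R ℚ)).toAlgebra' (fun c y => by
      simp only [RingHom.comp_apply]
      exact Algebra.commutes _ _)
  have hwN : ∀ s, ∀ g ∈ (rds G (s + 1)).1, w g = 1 := by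
    intro s g hg
    have h1 : g ∈ (rds G 1).1 := rds_anti G (by omega) hg
    rw [rds_succ, mem_nxt] at h1
    obtain ⟨_, k, hk, hgk⟩ := h1
    exact hw g k hk hgk
  let w' : ∀ s, G ⧸ (rds G (s + 1)).1 →* ℤˣ := fun s => QuotientGroup.lift _ w (hwN s)
  have hopp : ∀ s, opp w (sg ρ s) = sg (fun s => opp (w' s) (ρ s)) s := by
    intro s
    ext g
    rfl
  have hρ' : ∀ s, LinearIndependent ℤ (opp (w' s) (ρ s)) := fun s =>
    linearIndependent_opp (w' s) (ρ s) (hρ s)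
  have hU : ((hyperfilter ℕ : Ultrafilter ℕ) : Filter ℕ) ≤ atTop := Nat.hyperfilter_le_atTop
  have hbd : ∀ᶠ s in ((hyperfilter ℕ : Ultrafilter ℕ) : Filter ℕ),
      ∀ i, i ∉ T → ∃ g ∈ H i, g ∉ (rds G (s + 1)).1 := by
    refine eventually_all.2 fun i => ?_
    by_cases hi : i ∈ T
    · exact Eventually.of_forall fun s h => absurd hi h
    · obtain ⟨g, hg, hg'⟩ := SetLike.not_le_iff_exists.1 (hT i hi)
      exact (eventually_not_mem hU g hg').mono fun s hs _ => ⟨g, hg, hs⟩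
  have key : ∀ᶠ s in ((hyperfilter ℕ : Ultrafilter ℕ) : Filter ℕ),
      2 + (Fintype.card a₁ + Fintype.card a₃) ≤
      Module.finrank (L s)ᵐᵒᵖ (Z1 (sg ρ s)) +
      Module.finrank (L s)ᵐᵒᵖᵐᵒᵖ (Z1 (sg (fun s => opp (w' s) (ρ s)) s)) +
      (Fintype.card a₀ + Fintype.card a₂ + Fintype.card a₄) + T.card := by
    refine hbd.mono fun s hs => ?_
    have hfin := (finrank_le_card x hx (sg ρ s) Finset.univ (fun i => Submodule.subset_span
      ⟨i, by simp, rfl⟩)).1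
    have hfin' := (finrank_le_card x hx (opp w (sg ρ s)) Finset.univ
      (fun i => Submodule.subset_span ⟨i, by simp, rfl⟩)).1
    have h2 : ∀ i, i ∉ T → ∃ g ∈ H i, opp w (sg ρ s) g ≠ 1 := by
      intro i hi
      obtain ⟨g, hg, hg'⟩ := hs i hi
      refine ⟨g, hg, ?_⟩
      rw [hopp]
      exact apply_ne_one (opp (w' s) (ρ s)) (hρ' s) g hg'
    have := finrank_add_ge_rel w (sg ρ s) H h h' h0 T h2
    rw [hopp] at this
    omega
  have h2 : ∀ᶠ s in ((hyperfilter ℕ : Ultrafilter ℕ) : Filter ℕ),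
      Module.finrank (L s)ᵐᵒᵖᵐᵒᵖ (Z1 (sg (fun s => opp (w' s) (ρ s)) s)) ≤
        Module.finrank (L s)ᵐᵒᵖ (Z1 (sg ρ s)) ∨
      Module.finrank (L s)ᵐᵒᵖ (Z1 (sg ρ s)) ≤
        Module.finrank (L s)ᵐᵒᵖᵐᵒᵖ (Z1 (sg (fun s => opp (w' s) (ρ s)) s)) :=
    Eventually.of_forall fun s => le_total _ _
  rcases Ultrafilter.eventually_or.1 h2 with h3 | h3
  · refine ⟨L, hL, ρ, hρ, (h3.and key).mono fun s hs => ?_⟩
    obtain ⟨hs1, hs2⟩ := hs
    omega
  · refine ⟨fun s => (L s)ᵐᵒᵖ, fun s => inferInstance, fun s => opp (w' s) (ρ s), hρ',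
      (h3.and key).mono fun s hs => ?_⟩
    obtain ⟨hs1, hs2⟩ := hs
    change 2 + (Fintype.card a₁ + Fintype.card a₃) ≤
      2 * Module.finrank (L s)ᵐᵒᵖᵐᵒᵖ (Z1 (sg (fun s => opp (w' s) (ρ s)) s)) +
        (Fintype.card a₀ + Fintype.card a₂ + Fintype.card a₄) + T.card
    omega

end Pool.Agent.Helper32.RF
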